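import Pool.Agent.H424.LE.Main
import Pool.Graph.R_pool_sql_team_seeded_63374d34.N397.PQ.Main

/-! Dense and sparse blocks of a set. -/

set_option autoImplicit false

open Finset
open scoped Pointwise

namespace Pool.Agent.H424.OT

open Pool.Agent.W27.TP Pool.Agent.W27.BG Pool.Agent.H424.LE
open Pool.Agent.W27.TQ (AP AP_card AP_mono shift_dilate)

variable {p : ℕ} [Fact p.Prime]

/-- the elements of `A` in the block of index `k` -/
def blk (N : ℕ) (A : Finset (ZMod p)) (k : ℕ) : Finset (ZMod p) :=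
  A.filter fun a => a.val / N = k

/-- few local pairs if all blocks are sparse -/
theorem pairs_le (N D : ℕ) (hN : 1 ≤ N) (hNp : N ≤ p) (A : Finset (ZMod p))
    (hD : ∀ k, (blk N A k).card ≤ D) : (pairs N A).card ≤ 6 * D * A.card := by
  classical
  have hpp : 0 < p := (Fact.out : p.Prime).pos
  set M' := (p - 1) / N with hM'
  let K : ZMod p → Finset ℕ := fun s =>
    {s.val / N - 1, s.val / N, s.val / N + 1, 0, M' - 1, M'}
  have h1 : pairs N A ⊆ A.biUnion fun s => (K s).biUnion fun k =>
      (blk N A k).image fun s' => (s, s') := by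
    rintro ⟨s, s'⟩ h
    unfold pairs at h
    rw [Finset.mem_filter, Finset.mem_product] at h
    obtain ⟨⟨hs, hs'⟩, h2⟩ := h
    simp only at hs hs' h2
    rw [mem_dif] at h2
    obtain ⟨j, hj, e⟩ := h2
    rw [Finset.mem_biUnion]
    refine ⟨s, hs, ?_⟩
    rw [Finset.mem_biUnion]
    refine ⟨s'.val / N, ?_, ?_⟩
    · have hv1 := ZMod.val_lt s
      have hv2 := ZMod.val_lt s'
      have h3 : ((s'.val : ℤ) - s.val - j : ℤ) % p = 0 := by
        apply Int.emod_eq_zero_of_dvd
        rw [← ZMod.intCast_zmod_eq_zero_iff_dvd]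
        push_cast
        rw [ZMod.natCast_zmod_val, ZMod.natCast_zmod_val, e]
        ring
      have h4 : (p : ℤ) ∣ (s'.val : ℤ) - s.val - j := Int.dvd_of_emod_eq_zero h3
      obtain ⟨q, hq⟩ := h4
      rw [abs_lt] at hj
      have hq1 : q = 0 ∨ q = 1 ∨ q = -1 := by
        have a1 : (p : ℤ) * q < 2 * p := by
          rw [← hq]
          omega
        have a2 : -(2 * (p : ℤ)) < p * q := by
          rw [← hq]
          omega
        have hp0 : (0 : ℤ) < p := by exact_mod_cast hpp
        have a3 : q < 2 := by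
          by_contra hcon
          have : 2 ≤ q := by omega
          nlinarith
        have a4 : -2 < q := by
          by_contra hcon
          have : q ≤ -2 := by omega
          nlinarith
        omega
      simp only [K, Finset.mem_insert, Finset.mem_singleton]
      have hdiv : ∀ x y : ℕ, y < x + N → y / N ≤ x / N + 1 := by
        intro x y h
        have h5 : y / N ≤ (x + N) / N := Nat.div_le_div_right h.le
        rwa [Nat.add_div_right _ (by omega)] at h5
      rcases hq1 with h5 | h5 | h5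
      · rw [h5] at hq
        have a1 := hdiv s.val s'.val (by omega)
        have a2 := hdiv s'.val s.val (by omega)
        generalize s.val / N = m at a1 a2 ⊢
        generalize s'.val / N = m' at a1 a2 ⊢
        omega
      · rw [h5] at hq
        -- s' = s + j + p
        have a1 : p - 1 < s'.val + N := by omega
        have a2 := hdiv s'.val (p - 1) a1
        have a3 : s'.val / N ≤ (p - 1) / N := Nat.div_le_div_right (by omega)
        rw [← hM'] at a2 a3
        generalize s.val / N = m at a2 a3 ⊢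
        generalize s'.val / N = m' at a2 a3 ⊢
        omega
      · rw [h5] at hq
        have a1 : s'.val < N := by omega
        have a2 : s'.val / N = 0 := Nat.div_eq_of_lt a1
        omega
    · rw [Finset.mem_image]
      refine ⟨s', ?_, rfl⟩
      unfold blk
      rw [Finset.mem_filter]
      exact ⟨hs', rfl⟩
  refine (Finset.card_le_card h1).trans ?_
  refine Finset.card_biUnion_le.trans ?_
  calc ∑ s ∈ A, ((K s).biUnion fun k => (blk N A k).image fun s' => (s, s')).card
      ≤ ∑ _s ∈ A, 6 * D := by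
        refine Finset.sum_le_sum fun s _ => ?_
        refine Finset.card_biUnion_le.trans ?_
        calc ∑ k ∈ K s, ((blk N A k).image fun s' => (s, s')).card ≤ ∑ _k ∈ K s, D :=
              Finset.sum_le_sum fun k _ => Finset.card_image_le.trans (hD k)
          _ = (K s).card * D := by rw [Finset.sum_const, smul_eq_mul]
          _ ≤ 6 * D := by
              refine Nat.mul_le_mul_right _ ?_
              exact Finset.card_le_six
    _ = 6 * D * A.card := by rw [Finset.sum_const, smul_eq_mul]; ring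

theorem quads_le_pairs (N : ℕ) (A : Finset (ZMod p)) :
    (quads N A).card ≤ (pairs N A).card * A.card := by
  classical
  rw [← Finset.card_product]
  refine Finset.card_le_card_of_injOn (fun r => ((r.1.2, r.1.1), r.2.1)) ?_ ?_
  · rintro ⟨⟨a, b⟩, ⟨c, d⟩⟩ hr
    rw [Finset.mem_coe] at hr
    unfold quads at hr
    rw [Finset.mem_filter, Finset.mem_product, Finset.mem_product, Finset.mem_product] at hr
    obtain ⟨⟨⟨ha, hb⟩, ⟨hc, hd⟩⟩, h1, h2⟩ := hr
    simp only at ha hb hc hd h1 h2
    rw [Finset.mem_coe, Finset.mem_product]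
    unfold pairs
    rw [Finset.mem_filter, Finset.mem_product]
    exact ⟨⟨⟨hb, ha⟩, h2⟩, hc⟩
  · rintro ⟨⟨a, b⟩, ⟨c, d⟩⟩ hr ⟨⟨a', b'⟩, ⟨c', d'⟩⟩ hr' hh
    rw [Finset.mem_coe] at hr hr'
    unfold quads at hr hr'
    rw [Finset.mem_filter] at hr hr'
    simp only [Prod.mk.injEq] at hh
    obtain ⟨⟨rfl, rfl⟩, rfl⟩ := hh
    have h1 := hr.2.1
    have h2 := hr'.2.1
    simp only at h1 h2
    have h3 : d = d' := by
      have := h1.symm.trans h2
      exact sub_right_injective this
    rw [h3]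

/-- reduction to translates of a progression -/
theorem cover_reduce (v : ZMod p) (hv : v ≠ 0) (N' : ℕ) (hN'1 : 1 ≤ N') (hN'p : N' ≤ p)
    (Y : Finset (ZMod p)) (K : ℝ) (hY : ((Y + AP v N').card : ℝ) ≤ K * Y.card)
    (f : ZMod p → ℝ) (hf : ∀ x, 0 ≤ f x) (Θ : ℝ) (hΘ : 0 ≤ Θ)
    (h : ∀ t : ZMod p, ∑ x ∈ Icc (-(N' : ℤ)) N', f (t + (x : ZMod p) * v) ≤ Θ * N') :
    ∑ y ∈ Y, f y ≤ Θ * (K * Y.card) := by
  classical
  have hN'0 : (0 : ℝ) < N' := by exact_mod_cast hN'1
  have hIcard : (AP v N').card = N' := AP_card v hv N' hN'p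
  have hIne : (AP v N').Nonempty := by
    rw [← Finset.card_pos, hIcard]
    exact hN'1
  obtain ⟨F, hFA, hFcard, hFcov⟩ := Finset.ruzsa_covering_add (A := Y) (B := AP v N')
    (K := K * Y.card / (AP v N').card) hIne (by
      rw [div_mul_cancel₀ _ (by rw [hIcard]; exact hN'0.ne')]
      exact hY)
  have hFB : (F.card : ℝ) * N' ≤ K * Y.card := by
    rw [hIcard] at hFcard
    rwa [le_div_iff₀ hN'0] at hFcard
  have hYsub : Y ⊆ (F ×ˢ Icc (-(N' : ℤ)) N').image (fun q => q.1 + (q.2 : ZMod p) * v) := by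
    intro y hy
    have h1 := hFcov hy
    rw [Finset.mem_add] at h1
    obtain ⟨t, ht, d, hd, e1⟩ := h1
    rw [Finset.mem_sub] at hd
    obtain ⟨b, hb, b', hb', e2⟩ := hd
    unfold AP at hb hb'
    rw [Finset.mem_image] at hb hb'
    obtain ⟨j, hj, e3⟩ := hb
    obtain ⟨j', hj', e4⟩ := hb'
    rw [Finset.mem_range] at hj hj'
    rw [Finset.mem_image]
    refine ⟨(t, (j : ℤ) - (j' : ℤ)), ?_, ?_⟩
    · rw [Finset.mem_product, Finset.mem_Icc]
      refine ⟨ht, ?_, ?_⟩ <;> simp only <;> omega
    · simp only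
      rw [← e1, ← e2, ← e3, ← e4]
      push_cast
      ring
  calc ∑ y ∈ Y, f y ≤ ∑ y ∈ (F ×ˢ Icc (-(N' : ℤ)) N').image (fun q => q.1 + (q.2 : ZMod p) * v), f y :=
        Finset.sum_le_sum_of_subset_of_nonneg hYsub (fun _ _ _ => hf _)
    _ ≤ ∑ q ∈ F ×ˢ Icc (-(N' : ℤ)) N', f (q.1 + (q.2 : ZMod p) * v) :=
        Finset.sum_image_le_of_nonneg (fun _ _ => hf _)
    _ = ∑ t ∈ F, ∑ x ∈ Icc (-(N' : ℤ)) N', f (t + (x : ZMod p) * v) := Finset.sum_product _ _ _
    _ ≤ ∑ _t ∈ F, Θ * N' := Finset.sum_le_sum fun t _ => h t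
    _ = Θ * (F.card * N') := by
        rw [Finset.sum_const, nsmul_eq_mul]
        ring
    _ ≤ Θ * (K * Y.card) := mul_le_mul_of_nonneg_left hFB hΘ

end Pool.Agent.H424.OT
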