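import Pool.Agent.H424.OT.Blocks

/-! Dense blocks. -/

set_option autoImplicit false

open Finset
open scoped Pointwise

namespace Pool.Agent.H424.OT

open Pool.Agent.W27.TP Pool.Agent.W27.BG Pool.Agent.H424.LE
open Pool.Agent.W27.TQ (AP AP_card AP_mono)

variable {p : ℕ} [Fact p.Prime]

/-- from bilinear forms to means of absolute values -/
theorem l1_of_bilinear (χ : DirichletCharacter ℂ p) (A B : Finset (ZMod p)) (Θ : ℝ) (hΘ : 0 ≤ Θ)
    (h : ∀ f g : ZMod p → ℂ, ‖∑ a ∈ A, ∑ b ∈ B, f a * g b * χ (a + b)‖ ≤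
      Θ * (Real.sqrt (∑ a ∈ A, ‖f a‖ ^ 2) * Real.sqrt (∑ b ∈ B, ‖g b‖ ^ 2)))
    (S : Finset (ZMod p)) (hS : S ⊆ A) (α : ZMod p → ℂ) (hα : ∀ a, ‖α a‖ ≤ 1) :
    ∑ b ∈ B, ‖∑ a ∈ S, α a * χ (a + b)‖ ≤ Θ * (Real.sqrt S.card * Real.sqrt B.card) := by
  classical
  set F : ZMod p → ℂ := fun b => ∑ a ∈ S, α a * χ (a + b) with hF
  have h1 := h (fun a => if a ∈ S then α a else 0)
    (fun b => if F b = 0 then 0 else (starRingEnd ℂ) (F b) / ‖F b‖)
  have e1 : ∑ a ∈ A, ∑ b ∈ B, (if a ∈ S then α a else 0) *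
      (if F b = 0 then 0 else (starRingEnd ℂ) (F b) / ‖F b‖) * χ (a + b) =
      ((∑ b ∈ B, ‖F b‖ : ℝ) : ℂ) := by
    rw [Finset.sum_comm]
    push_cast
    refine Finset.sum_congr rfl fun b _ => ?_
    have e2 : ∑ a ∈ A, (if a ∈ S then α a else 0) *
        (if F b = 0 then 0 else (starRingEnd ℂ) (F b) / ‖F b‖) * χ (a + b) =
        (if F b = 0 then 0 else (starRingEnd ℂ) (F b) / ‖F b‖) * F b := by
      rw [hF]
      simp only
      rw [Finset.mul_sum]
      rw [← Finset.sum_subset hS (fun a _ ha => by rw [if_neg ha]; ring)]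
      refine Finset.sum_congr rfl fun a ha => ?_
      rw [if_pos ha]
      ring
    rw [e2]
    by_cases h0 : F b = 0
    · rw [if_pos h0, h0]
      simp
    · rw [if_neg h0]
      have h2 : (‖F b‖ : ℂ) ≠ 0 := by
        rw [Ne, Complex.ofReal_eq_zero, norm_eq_zero]
        exact h0
      rw [div_mul_eq_mul_div, mul_comm ((starRingEnd ℂ) (F b)) (F b), Complex.mul_conj']
      field_simp
  rw [e1, Complex.norm_real, Real.norm_eq_abs,
    abs_of_nonneg (Finset.sum_nonneg fun _ _ => norm_nonneg _)] at h1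
  refine h1.trans (mul_le_mul_of_nonneg_left ?_ hΘ)
  refine mul_le_mul (Real.sqrt_le_sqrt ?_) (Real.sqrt_le_sqrt ?_) (Real.sqrt_nonneg _)
    (Real.sqrt_nonneg _)
  · rw [← Finset.sum_subset hS (fun a _ ha => by rw [if_neg ha]; simp)]
    calc ∑ a ∈ S, ‖(if a ∈ S then α a else 0)‖ ^ 2 ≤ ∑ _a ∈ S, (1 : ℝ) := by
          refine Finset.sum_le_sum fun a ha => ?_
          rw [if_pos ha]
          exact pow_le_one₀ (norm_nonneg _) (hα a)
      _ = S.card := by simp
  · calc ∑ b ∈ B, ‖(if F b = 0 then (0 : ℂ) else (starRingEnd ℂ) (F b) / ‖F b‖)‖ ^ 2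
        ≤ ∑ _b ∈ B, (1 : ℝ) := by
          refine Finset.sum_le_sum fun b _ => ?_
          split_ifs with h0
          · simp
          · rw [norm_div, RCLike.norm_conj, Complex.norm_real, norm_norm,
              div_self (by rw [norm_ne_zero_iff]; exact h0)]
            norm_num
      _ = B.card := by simp

/-- the residues of the integers of absolute value at most `N` -/
noncomputable def ball (p N : ℕ) : Finset (ZMod p) := (Icc (-(N : ℤ)) N).image (fun x : ℤ => (x : ZMod p))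

theorem ball_inj (N : ℕ) (hN : 2 * N < p) :
    Set.InjOn (fun x : ℤ => (x : ZMod p)) (Icc (-(N : ℤ)) N : Finset ℤ) := by
  intro x hx y hy h
  rw [Finset.mem_coe, Finset.mem_Icc] at hx hy
  simp only at h
  have h3 : ((x - y : ℤ) : ZMod p) = 0 := by push_cast; rw [h, sub_self]
  rw [ZMod.intCast_zmod_eq_zero_iff_dvd] at h3
  have h4 : |x - y| < (p : ℤ) := by
    rw [abs_lt]
    constructor <;> omega
  have h5 := Int.eq_zero_of_abs_lt_dvd h3 h4
  omega

theorem ball_card (N : ℕ) (hN : 2 * N < p) : (ball p N).card = 2 * N + 1 := by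
  unfold ball
  rw [Finset.card_image_of_injOn (ball_inj N hN), Int.card_Icc]
  omega

theorem sum_ball (N : ℕ) (hN : 2 * N < p) (f : ZMod p → ℝ) :
    ∑ b ∈ ball p N, f b = ∑ x ∈ Icc (-(N : ℤ)) N, f (x : ZMod p) := by
  unfold ball
  rw [Finset.sum_image (ball_inj N hN)]

/-- the bound for a dense block -/
theorem dense_all (ε : ℝ) (hε : 0 < ε) :
    ∃ τ : ℝ, 0 < τ ∧ ∃ P : ℕ, ∀ (p : ℕ) [Fact p.Prime], P ≤ p →
      ∀ (χ : DirichletCharacter ℂ p), χ ≠ 1 → ∀ N : ℕ, (p : ℝ) ^ (1 / 4 + ε) ≤ N → 16 * N ≤ p →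
        ∀ (A : Finset (ZMod p)) (k : ℕ) (α : ZMod p → ℂ), (∀ a, ‖α a‖ ≤ 1) →
          ∑ x ∈ Icc (-(N : ℤ)) N, ‖∑ a ∈ blk N A k, α a * χ (a + (x : ZMod p))‖
            ≤ (p : ℝ) ^ (-τ) * (Real.sqrt (blk N A k).card * (N * Real.sqrt N)) := by
  classical
  obtain ⟨τ, hτ, p₀, h⟩ := Pool.Agent.N397.PQ.main ε 2 hε
  obtain ⟨P1, hP1⟩ := large_rpow τ 3 hτ
  refine ⟨τ, hτ, p₀ + P1, ?_⟩
  intro p _ hp χ hχ N hN hN16 A k α hα
  have hP1' := hP1 p (by omega)
  have hpp : 2 ≤ p := (Fact.out : p.Prime).two_le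
  have hp1' : (1 : ℝ) < p := by exact_mod_cast (by omega : 1 < p)
  have hp1 : (1 : ℝ) ≤ p := hp1'.le
  have hp0 : (0 : ℝ) < p := by linarith
  have hN1R : (1 : ℝ) ≤ N := (Real.one_le_rpow hp1 (by positivity)).trans hN
  have hN1 : 1 ≤ N := by exact_mod_cast hN1R
  have hN0 : (0 : ℝ) < N := by linarith
  set J : Finset (ZMod p) := (range N).image (fun j : ℕ => ((k * N + j : ℕ) : ZMod p)) with hJ
  set I : Finset (ZMod p) := (range N).image (fun j : ℕ => (j : ZMod p)) with hI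
  have hinj : ∀ c : ℕ, Set.InjOn (fun j : ℕ => ((c + j : ℕ) : ZMod p)) (range N : Finset ℕ) := by
    intro c a ha b hb hab
    rw [Finset.mem_coe, Finset.mem_range] at ha hb
    simp only at hab
    push_cast at hab
    have h4 := add_left_cancel hab
    rw [ZMod.natCast_eq_natCast_iff'] at h4
    rwa [Nat.mod_eq_of_lt (by omega), Nat.mod_eq_of_lt (by omega)] at h4
  have hJcard : J.card = N := by
    rw [hJ, Finset.card_image_of_injOn (hinj (k * N)), Finset.card_range]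
  have hIcard : I.card = N := by
    have h0 := hinj 0
    simp only [zero_add] at h0
    rw [hI, Finset.card_image_of_injOn h0, Finset.card_range]
  -- sumsets
  have hII : ((I + I).card : ℝ) ≤ 2 * I.card := by
    have h1 : I + I ⊆ (range (2 * N)).image (fun j : ℕ => (j : ZMod p)) := by
      intro z hz
      rw [Finset.mem_add] at hz
      obtain ⟨x, hx, y, hy, rfl⟩ := hz
      rw [hI, Finset.mem_image] at hx hy
      obtain ⟨i, hi, rfl⟩ := hx
      obtain ⟨j, hj, rfl⟩ := hy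
      rw [Finset.mem_range] at hi hj
      rw [Finset.mem_image]
      exact ⟨i + j, by rw [Finset.mem_range]; omega, by push_cast; rfl⟩
    have h2 := (Finset.card_le_card h1).trans Finset.card_image_le
    rw [Finset.card_range] at h2
    rw [hIcard]
    exact_mod_cast h2
  have hJI : ((J + I).card : ℝ) ≤ (p : ℝ) ^ τ * J.card := by
    have h1 : J + I ⊆ (range (2 * N)).image (fun j : ℕ => ((k * N + j : ℕ) : ZMod p)) := by
      intro z hz
      rw [Finset.mem_add] at hz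
      obtain ⟨x, hx, y, hy, rfl⟩ := hz
      rw [hJ, Finset.mem_image] at hx
      rw [hI, Finset.mem_image] at hy
      obtain ⟨i, hi, rfl⟩ := hx
      obtain ⟨j, hj, rfl⟩ := hy
      rw [Finset.mem_range] at hi hj
      rw [Finset.mem_image]
      exact ⟨i + j, by rw [Finset.mem_range]; omega, by push_cast; ring⟩
    have h2 := (Finset.card_le_card h1).trans Finset.card_image_le
    rw [Finset.card_range] at h2
    rw [hJcard]
    have h3 : ((J + I).card : ℝ) ≤ 2 * N := by exact_mod_cast h2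
    have h4 : 3 * (N : ℝ) ≤ (p : ℝ) ^ τ * N := mul_le_mul_of_nonneg_right hP1'.le hN0.le
    linarith
  have hBc : (ball p N).card = 2 * N + 1 := ball_card N (by omega)
  have hBI : ((ball p N + I).card : ℝ) ≤ (p : ℝ) ^ τ * (ball p N).card := by
    have h1 : ball p N + I ⊆ (Icc (-(N : ℤ)) (2 * N)).image (fun x : ℤ => (x : ZMod p)) := by
      intro z hz
      rw [Finset.mem_add] at hz
      obtain ⟨x, hx, y, hy, rfl⟩ := hz
      unfold ball at hx
      rw [Finset.mem_image] at hx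
      rw [hI, Finset.mem_image] at hy
      obtain ⟨i, hi, rfl⟩ := hx
      obtain ⟨j, hj, rfl⟩ := hy
      rw [Finset.mem_Icc] at hi
      rw [Finset.mem_range] at hj
      rw [Finset.mem_image]
      refine ⟨i + j, by rw [Finset.mem_Icc]; constructor <;> omega, by push_cast; rfl⟩
    have h2 := (Finset.card_le_card h1).trans Finset.card_image_le
    rw [Int.card_Icc] at h2
    have h3 : (ball p N + I).card ≤ 3 * N + 1 := by omega
    rw [hBc]
    have h4 : ((ball p N + I).card : ℝ) ≤ 3 * N + 1 := by exact_mod_cast h3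
    have h5 : 3 * (2 * (N : ℝ) + 1) ≤ (p : ℝ) ^ τ * (2 * N + 1) :=
      mul_le_mul_of_nonneg_right hP1'.le (by positivity)
    push_cast
    linarith
  have hεI : (p : ℝ) ^ ε ≤ I.card := by
    rw [hIcard]
    exact (Real.rpow_le_rpow_of_exponent_le hp1 (by linarith)).trans hN
  have hII2 : (p : ℝ) ^ (1 / 2 + ε) ≤ (I.card : ℝ) * I.card := by
    rw [hIcard]
    calc (p : ℝ) ^ (1 / 2 + ε) ≤ (p : ℝ) ^ ((1 / 4 + ε) + (1 / 4 + ε)) :=
          Real.rpow_le_rpow_of_exponent_le hp1 (by linarith)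
      _ = (p : ℝ) ^ (1 / 4 + ε) * (p : ℝ) ^ (1 / 4 + ε) := Real.rpow_add hp0 _ _
      _ ≤ N * N := mul_le_mul hN hN (by positivity) hN0.le
  have hmain := h p (by omega) χ hχ J (ball p N) I I hεI hεI hII2 hII hII hJI hBI
  have hsub : blk N A k ⊆ J := by
    intro a ha
    unfold blk at ha
    rw [Finset.mem_filter] at ha
    rw [hJ, Finset.mem_image]
    refine ⟨a.val % N, ?_, ?_⟩
    · rw [Finset.mem_range]
      exact Nat.mod_lt _ (by omega)
    · have h1 := Nat.div_add_mod a.val N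
      rw [ha.2, mul_comm N k] at h1
      rw [h1, ZMod.natCast_zmod_val]
  have h9 := l1_of_bilinear χ J (ball p N)
    ((p : ℝ) ^ (-(2 * τ)) * (Real.sqrt J.card * Real.sqrt (ball p N).card)) (by positivity)
    (fun f g => by rw [mul_assoc]; exact hmain f g) (blk N A k) hsub α hα
  rw [sum_ball N (by omega) (fun b => ‖∑ a ∈ blk N A k, α a * χ (a + b)‖)] at h9
  refine h9.trans ?_
  rw [hJcard, hBc]
  have h10 : Real.sqrt ((2 * N + 1 : ℕ) : ℝ) * Real.sqrt ((2 * N + 1 : ℕ) : ℝ) ≤ 3 * N := by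
    rw [Real.mul_self_sqrt (Nat.cast_nonneg _)]
    push_cast
    linarith
  calc (p : ℝ) ^ (-(2 * τ)) * (Real.sqrt N * Real.sqrt ((2 * N + 1 : ℕ) : ℝ)) *
        (Real.sqrt (blk N A k).card * Real.sqrt ((2 * N + 1 : ℕ) : ℝ))
      = (p : ℝ) ^ (-(2 * τ)) * Real.sqrt N * Real.sqrt (blk N A k).card *
        (Real.sqrt ((2 * N + 1 : ℕ) : ℝ) * Real.sqrt ((2 * N + 1 : ℕ) : ℝ)) := by ring
    _ ≤ (p : ℝ) ^ (-(2 * τ)) * Real.sqrt N * Real.sqrt (blk N A k).card * (3 * N) :=
        mul_le_mul_of_nonneg_left h10 (by positivity)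
    _ = ((p : ℝ) ^ (-(2 * τ)) * 3) * (Real.sqrt (blk N A k).card * (N * Real.sqrt N)) := by ring
    _ ≤ (p : ℝ) ^ (-τ) * (Real.sqrt (blk N A k).card * (N * Real.sqrt N)) := by
        refine mul_le_mul_of_nonneg_right ?_ (by positivity)
        calc (p : ℝ) ^ (-(2 * τ)) * 3 ≤ (p : ℝ) ^ (-(2 * τ)) * (p : ℝ) ^ τ :=
              mul_le_mul_of_nonneg_left hP1'.le (by positivity)
          _ = (p : ℝ) ^ (-τ) := by
              rw [← Real.rpow_add hp0]
              congr 1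
              ring

end Pool.Agent.H424.OT
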