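import Pool.Agent.H424.OT.Dense

/-! An arbitrary set and an interval, below one third. -/

set_option autoImplicit false

open Finset
open scoped Pointwise

namespace Pool.Agent.H424.OT

open Pool.Agent.W27.TP Pool.Agent.W27.BG Pool.Agent.H424.LE
open Pool.Agent.W27.TQ (AP AP_card AP_mono shift_dilate)

/-- power saving over one interval -/
theorem line_third (ε : ℝ) (hε : 0 < ε) :
    ∃ c : ℝ, 0 < c ∧ c ≤ 1 / 16 ∧ ∃ η : ℝ, 0 < η ∧ ∃ P : ℕ, ∀ (p : ℕ) [Fact p.Prime], P ≤ p →
      ∀ (χ : DirichletCharacter ℂ p), χ ≠ 1 → ∀ N : ℕ, (p : ℝ) ^ (1 / 4 + ε) ≤ N → 16 * N ≤ p →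
        (N : ℝ) ^ 2 ≤ p →
        ∀ (A : Finset (ZMod p)) (α : ZMod p → ℂ), (∀ a, ‖α a‖ ≤ 1) →
          (p : ℝ) ^ (1 - c) ≤ (A.card : ℝ) ^ 2 * N →
          ∑ x ∈ Icc (-(N : ℤ)) N, ‖∑ a ∈ A, α a * χ (a + (x : ZMod p))‖
            ≤ (p : ℝ) ^ (-η) * (A.card * N) := by
  classical
  obtain ⟨τ, hτ, P1, hP1⟩ := dense_all ε hε
  obtain ⟨e, hedef⟩ : ∃ e : ℝ, e = min τ 1 / 16 := ⟨_, rfl⟩
  have he0 : 0 < e := by rw [hedef]; exact div_pos (lt_min hτ one_pos) (by norm_num)
  have heτ : 16 * e ≤ τ := by rw [hedef]; linarith [min_le_left τ 1]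
  have he1 : 16 * e ≤ 1 := by rw [hedef]; linarith [min_le_right τ 1]
  obtain ⟨η1, hη1, P2, hP2⟩ := line_pow e he0
  obtain ⟨P3, hP3⟩ := large_rpow e 6 he0
  set η := min η1 e / 2 with hη
  have hη0 : 0 < η := by rw [hη]; exact div_pos (lt_min hη1 he0) (by norm_num)
  have hηη : 2 * η ≤ η1 := by rw [hη]; linarith [min_le_left η1 e]
  have hηe : 2 * η ≤ e := by rw [hη]; linarith [min_le_right η1 e]
  obtain ⟨P4, hP4⟩ := large_rpow η 5 hη0
  refine ⟨e, he0, by linarith, η, hη0, P1 + P2 + P3 + P4, ?_⟩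
  intro p _ hp χ hχ N hN hN16 hNsq A α hα hA
  have hP3' := hP3 p (by omega)
  have hP4' := hP4 p (by omega)
  have hpp : 2 ≤ p := (Fact.out : p.Prime).two_le
  have hp1 : (1 : ℝ) ≤ p := by exact_mod_cast (by omega : 1 ≤ p)
  have hp0 : (0 : ℝ) < p := by linarith
  have hN1R : (1 : ℝ) ≤ N := (Real.one_le_rpow hp1 (by positivity)).trans hN
  have hN1 : 1 ≤ N := by exact_mod_cast hN1R
  have hN0 : (0 : ℝ) < N := by linarith
  have hNhalf : (N : ℝ) ≤ (p : ℝ) ^ (1 / 2 : ℝ) := by
    rw [← Real.sqrt_eq_rpow]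
    exact Real.le_sqrt_of_sq_le hNsq
  -- the size of `A`
  have hA2 : (p : ℝ) ^ (1 / 2 - e) ≤ (A.card : ℝ) ^ 2 := by
    have h1 : (p : ℝ) ^ (1 / 2 - e) * N ≤ (A.card : ℝ) ^ 2 * N := by
      calc (p : ℝ) ^ (1 / 2 - e) * N ≤ (p : ℝ) ^ (1 / 2 - e) * (p : ℝ) ^ (1 / 2 : ℝ) :=
            mul_le_mul_of_nonneg_left hNhalf (by positivity)
        _ = (p : ℝ) ^ (1 - e) := by rw [← Real.rpow_add hp0]; congr 1; ring
        _ ≤ _ := hA
    exact le_of_mul_le_mul_right h1 hN0
  have hA4 : (p : ℝ) ^ (1 / 4 - e / 2) ≤ A.card := by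
    have h1 : ((p : ℝ) ^ (1 / 4 - e / 2)) ^ 2 = (p : ℝ) ^ (1 / 2 - e) := by
      rw [← Real.rpow_natCast, ← Real.rpow_mul hp0.le]
      congr 1
      push_cast
      ring
    rw [← h1] at hA2
    exact le_of_sq_le_sq hA2 (Nat.cast_nonneg _)
  have hA0 : (0 : ℝ) < A.card := lt_of_lt_of_le (by positivity) hA4
  -- the threshold
  set DR : ℝ := (A.card : ℝ) ^ 2 * (N : ℝ) ^ 2 * (p : ℝ) ^ (-(1 + 4 * e)) with hDR
  have hDR0 : 0 < DR := by rw [hDR]; positivity
  obtain ⟨D, hD⟩ : ∃ D : ℕ, D = ⌊DR⌋₊ := ⟨_, rfl⟩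
  have hDle : (D : ℝ) ≤ DR := by rw [hD]; exact Nat.floor_le hDR0.le
  have hDlt : DR < D + 1 := by rw [hD]; exact Nat.lt_floor_add_one _
  set As := A.filter fun a => ¬ D < (blk N A (a.val / N)).card with hAs
  set Ad := A.filter fun a => D < (blk N A (a.val / N)).card with hAd
  set K := (range p).filter fun k => D < (blk N A k).card with hK
  -- splitting
  have hsplit : ∀ x : ℤ, ‖∑ a ∈ A, α a * χ (a + (x : ZMod p))‖ ≤
      ‖∑ a ∈ As, α a * χ (a + (x : ZMod p))‖ +
        ∑ k ∈ K, ‖∑ a ∈ blk N A k, α a * χ (a + (x : ZMod p))‖ := by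
    intro x
    have h1 : ∑ a ∈ A, α a * χ (a + (x : ZMod p)) = ∑ a ∈ As, α a * χ (a + (x : ZMod p)) +
        ∑ a ∈ Ad, α a * χ (a + (x : ZMod p)) := by
      rw [hAs, hAd, Finset.sum_filter_not_add_sum_filter]
    have h2 : ∑ a ∈ Ad, α a * χ (a + (x : ZMod p)) =
        ∑ k ∈ K, ∑ a ∈ blk N A k, α a * χ (a + (x : ZMod p)) := by
      rw [← Finset.sum_fiberwise_of_maps_to (s := Ad) (t := K) (g := fun a => a.val / N)]
      · refine Finset.sum_congr rfl fun k hk => ?_
        refine Finset.sum_congr ?_ fun _ _ => rfl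
        rw [hK, Finset.mem_filter] at hk
        ext a
        rw [hAd]
        unfold blk
        rw [Finset.mem_filter, Finset.mem_filter, Finset.mem_filter]
        constructor
        · rintro ⟨⟨h3, -⟩, h4⟩
          exact ⟨h3, h4⟩
        · rintro ⟨h3, h4⟩
          refine ⟨⟨h3, ?_⟩, h4⟩
          rw [h4]
          exact hk.2
      · intro a ha
        rw [hAd, Finset.mem_filter] at ha
        rw [hK, Finset.mem_filter, Finset.mem_range]
        refine ⟨lt_of_le_of_lt (Nat.div_le_self _ _) (ZMod.val_lt a), ha.2⟩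
    rw [h1, h2]
    exact (norm_add_le _ _).trans (add_le_add le_rfl (norm_sum_le _ _))
  -- the dense part
  have hdense : ∀ k ∈ K, ∑ x ∈ Icc (-(N : ℤ)) N, ‖∑ a ∈ blk N A k, α a * χ (a + (x : ZMod p))‖ ≤
      (p : ℝ) ^ (-(2 * η)) * ((blk N A k).card * N) := by
    intro k hk
    rw [hK, Finset.mem_filter] at hk
    have h1 := hP1 p (by omega) χ hχ N hN hN16 A k α hα
    refine h1.trans ?_
    set m : ℝ := ((blk N A k).card : ℝ) with hm
    have hmD : DR < m := by
      have h2 : D + 1 ≤ (blk N A k).card := hk.2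
      have h3 : ((D + 1 : ℕ) : ℝ) ≤ m := by rw [hm]; exact_mod_cast h2
      push_cast at h3
      linarith
    have hm0 : 0 < m := by linarith
    have h4 : (N : ℝ) ≤ (p : ℝ) ^ (5 * e) * m := by
      have h5 : (N : ℝ) ≤ (p : ℝ) ^ (5 * e) * DR := by
        have h6 : (p : ℝ) ^ (5 * e) * DR = ((A.card : ℝ) ^ 2 * N) * (p : ℝ) ^ (-(1 - e)) * N := by
          rw [hDR]
          have h7 : (p : ℝ) ^ (-(1 - e)) = (p : ℝ) ^ (5 * e) * (p : ℝ) ^ (-(1 + 4 * e)) := by
            rw [← Real.rpow_add hp0]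
            congr 1
            ring
          rw [h7]
          ring
        rw [h6]
        have h8 : 1 ≤ ((A.card : ℝ) ^ 2 * N) * (p : ℝ) ^ (-(1 - e)) := by
          calc (1 : ℝ) = (p : ℝ) ^ (1 - e) * (p : ℝ) ^ (-(1 - e)) := by
                rw [← Real.rpow_add hp0]
                simp
            _ ≤ _ := mul_le_mul_of_nonneg_right hA (by positivity)
        exact le_mul_of_one_le_left hN0.le h8
      exact h5.trans (mul_le_mul_of_nonneg_left hmD.le (by positivity))
    have h5 : Real.sqrt N ≤ (p : ℝ) ^ (5 * e / 2) * Real.sqrt m := by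
      rw [Real.sqrt_le_left (by positivity), mul_pow, Real.sq_sqrt hm0.le]
      refine h4.trans (le_of_eq ?_)
      congr 1
      rw [← Real.rpow_natCast, ← Real.rpow_mul hp0.le]
      congr 1
      push_cast
      ring
    calc (p : ℝ) ^ (-τ) * (Real.sqrt m * (N * Real.sqrt N))
        ≤ (p : ℝ) ^ (-τ) * (Real.sqrt m * (N * ((p : ℝ) ^ (5 * e / 2) * Real.sqrt m))) := by
          refine mul_le_mul_of_nonneg_left ?_ (by positivity)
          refine mul_le_mul_of_nonneg_left ?_ (Real.sqrt_nonneg _)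
          exact mul_le_mul_of_nonneg_left h5 hN0.le
      _ = ((p : ℝ) ^ (-τ) * (p : ℝ) ^ (5 * e / 2)) * ((Real.sqrt m * Real.sqrt m) * N) := by ring
      _ = (p : ℝ) ^ (-τ + 5 * e / 2) * (m * N) := by
          rw [Real.mul_self_sqrt hm0.le, ← Real.rpow_add hp0]
      _ ≤ (p : ℝ) ^ (-(2 * η)) * (m * N) := by
          refine mul_le_mul_of_nonneg_right ?_ (by positivity)
          exact Real.rpow_le_rpow_of_exponent_le hp1 (by linarith)
  -- the sparse part
  have hAsle : (As.card : ℝ) ≤ A.card := by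
    rw [hAs]
    exact_mod_cast Finset.card_filter_le _ _
  have hsparse : ∑ x ∈ Icc (-(N : ℤ)) N, ‖∑ a ∈ As, α a * χ (a + (x : ZMod p))‖ ≤
      3 * (p : ℝ) ^ (-(2 * η)) * (A.card * N) := by
    rcases lt_or_ge (As.card : ℝ) ((p : ℝ) ^ (-e) * A.card) with hcase | hcase
    · have h1 : ∀ x ∈ Icc (-(N : ℤ)) N, ‖∑ a ∈ As, α a * χ (a + (x : ZMod p))‖ ≤
          (p : ℝ) ^ (-e) * A.card := by
        intro x _
        refine (norm_sum_le _ _).trans (le_trans ?_ hcase.le)
        calc ∑ a ∈ As, ‖α a * χ (a + (x : ZMod p))‖ ≤ ∑ _a ∈ As, (1 : ℝ) := by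
              refine Finset.sum_le_sum fun a _ => ?_
              rw [norm_mul]
              exact mul_le_one₀ (hα a) (norm_nonneg _) (DirichletCharacter.norm_le_one χ _)
          _ = As.card := by simp
      refine (Finset.sum_le_sum h1).trans ?_
      rw [Finset.sum_const, Int.card_Icc, nsmul_eq_mul]
      have h2 : (((N : ℤ) + 1 - (-(N : ℤ))).toNat : ℝ) = 2 * N + 1 := by
        have : ((N : ℤ) + 1 - (-(N : ℤ))).toNat = 2 * N + 1 := by omega
        rw [this]
        push_cast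
        ring
      rw [h2]
      have h3 : (2 * (N : ℝ) + 1) ≤ 3 * N := by linarith
      have h4 : (p : ℝ) ^ (-e) ≤ (p : ℝ) ^ (-(2 * η)) :=
        Real.rpow_le_rpow_of_exponent_le hp1 (by linarith)
      calc (2 * (N : ℝ) + 1) * ((p : ℝ) ^ (-e) * A.card)
          ≤ (3 * N) * ((p : ℝ) ^ (-(2 * η)) * A.card) := by
            refine mul_le_mul h3 ?_ (by positivity) (by positivity)
            exact mul_le_mul_of_nonneg_right h4 hA0.le
        _ = _ := by ring
    · -- few local quadruples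
      have hblk : ∀ k, (blk N As k).card ≤ D := by
        intro k
        by_cases h1 : D < (blk N A k).card
        · have h2 : blk N As k = ∅ := by
            unfold blk
            rw [Finset.filter_eq_empty_iff]
            intro a ha hk
            rw [hAs, Finset.mem_filter] at ha
            apply ha.2
            rw [hk]
            exact h1
          rw [h2, Finset.card_empty]
          exact Nat.zero_le _
        · refine le_trans (Finset.card_le_card ?_) (not_lt.1 h1)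
          unfold blk
          intro a ha
          rw [Finset.mem_filter] at ha ⊢
          rw [hAs, Finset.mem_filter] at ha
          exact ⟨ha.1.1, ha.2⟩
      have h1 : ((quads N As).card : ℝ) ≤ 6 * DR * (As.card : ℝ) ^ 2 := by
        have h2 := (quads_le_pairs N As).trans
          (Nat.mul_le_mul_right _ (pairs_le N D hN1 (by omega) As hblk))
        have h3 : ((quads N As).card : ℝ) ≤ (6 * D * As.card) * As.card := by exact_mod_cast h2
        calc ((quads N As).card : ℝ) ≤ (6 * D * As.card) * As.card := h3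
          _ = 6 * D * (As.card : ℝ) ^ 2 := by ring
          _ ≤ 6 * DR * (As.card : ℝ) ^ 2 := by
              refine mul_le_mul_of_nonneg_right ?_ (by positivity)
              linarith
      have hAs0 : (0 : ℝ) < As.card := lt_of_lt_of_le (by positivity) hcase
      have h2 : (p : ℝ) ^ (1 + e) * (quads N As).card ≤ (As.card : ℝ) ^ 4 * (N : ℝ) ^ 2 := by
        have h3 : (p : ℝ) ^ (1 + e) * (6 * DR) ≤ (As.card : ℝ) ^ 2 * (N : ℝ) ^ 2 := by
          have h4 : (p : ℝ) ^ (1 + e) * (6 * DR) =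
              (6 * (p : ℝ) ^ (-e)) * ((p : ℝ) ^ (-e) * A.card) ^ 2 * (N : ℝ) ^ 2 := by
            rw [hDR]
            have h5 : (p : ℝ) ^ (-(1 + 4 * e)) = (p : ℝ) ^ (-(1 + e)) * (p : ℝ) ^ (-e) *
                (p : ℝ) ^ (-e) * (p : ℝ) ^ (-e) := by
              rw [← Real.rpow_add hp0, ← Real.rpow_add hp0, ← Real.rpow_add hp0]
              congr 1
              ring
            have h6 : (p : ℝ) ^ (1 + e) * (p : ℝ) ^ (-(1 + e)) = 1 := by
              rw [← Real.rpow_add hp0]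
              simp
            rw [h5]
            calc (p : ℝ) ^ (1 + e) * (6 * ((A.card : ℝ) ^ 2 * (N : ℝ) ^ 2 *
                ((p : ℝ) ^ (-(1 + e)) * (p : ℝ) ^ (-e) * (p : ℝ) ^ (-e) * (p : ℝ) ^ (-e))))
                = ((p : ℝ) ^ (1 + e) * (p : ℝ) ^ (-(1 + e))) * (6 * (p : ℝ) ^ (-e)) *
                  ((p : ℝ) ^ (-e) * A.card) ^ 2 * (N : ℝ) ^ 2 := by ring
              _ = _ := by rw [h6, one_mul]
          rw [h4]
          have h7 : 6 * (p : ℝ) ^ (-e) ≤ 1 := by
            have h8 : (p : ℝ) ^ e * (p : ℝ) ^ (-e) = 1 := by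
              rw [← Real.rpow_add hp0]
              simp
            calc 6 * (p : ℝ) ^ (-e) ≤ (p : ℝ) ^ e * (p : ℝ) ^ (-e) :=
                  mul_le_mul_of_nonneg_right hP3'.le (by positivity)
              _ = 1 := h8
          have h8 : ((p : ℝ) ^ (-e) * A.card) ^ 2 ≤ (As.card : ℝ) ^ 2 :=
            pow_le_pow_left₀ (by positivity) hcase 2
          calc (6 * (p : ℝ) ^ (-e)) * ((p : ℝ) ^ (-e) * A.card) ^ 2 * (N : ℝ) ^ 2
              ≤ 1 * (As.card : ℝ) ^ 2 * (N : ℝ) ^ 2 := by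
                refine mul_le_mul_of_nonneg_right ?_ (by positivity)
                exact mul_le_mul h7 h8 (by positivity) (by norm_num)
            _ = _ := by ring
        calc (p : ℝ) ^ (1 + e) * (quads N As).card
            ≤ (p : ℝ) ^ (1 + e) * (6 * DR * (As.card : ℝ) ^ 2) :=
              mul_le_mul_of_nonneg_left h1 (by positivity)
          _ = ((p : ℝ) ^ (1 + e) * (6 * DR)) * (As.card : ℝ) ^ 2 := by ring
          _ ≤ ((As.card : ℝ) ^ 2 * (N : ℝ) ^ 2) * (As.card : ℝ) ^ 2 :=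
              mul_le_mul_of_nonneg_right h3 (by positivity)
          _ = _ := by ring
      have h3 : (p : ℝ) ^ e ≤ As.card := by
        refine le_trans ?_ hcase
        calc (p : ℝ) ^ e ≤ (p : ℝ) ^ (-e + (1 / 4 - e / 2)) :=
              Real.rpow_le_rpow_of_exponent_le hp1 (by linarith)
          _ = (p : ℝ) ^ (-e) * (p : ℝ) ^ (1 / 4 - e / 2) := Real.rpow_add hp0 _ _
          _ ≤ _ := mul_le_mul_of_nonneg_left hA4 (by positivity)
      have h4 : (p : ℝ) ^ e ≤ N :=
        (Real.rpow_le_rpow_of_exponent_le hp1 (by linarith)).trans hN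
      have h5 := hP2 p (by omega) χ hχ N h4 hN16 As α hα h3 h2
      refine h5.trans ?_
      have h6 : (p : ℝ) ^ (-η1) ≤ (p : ℝ) ^ (-(2 * η)) :=
        Real.rpow_le_rpow_of_exponent_le hp1 (by linarith)
      calc (p : ℝ) ^ (-η1) * (As.card * N) ≤ (p : ℝ) ^ (-(2 * η)) * (A.card * N) := by
            refine mul_le_mul h6 ?_ (by positivity) (by positivity)
            exact mul_le_mul_of_nonneg_right hAsle hN0.le
        _ ≤ 3 * (p : ℝ) ^ (-(2 * η)) * (A.card * N) := by
            have : 0 ≤ (p : ℝ) ^ (-(2 * η)) * (A.card * N) := by positivity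
            nlinarith
  -- the sizes of the blocks
  have hblocks : ∑ k ∈ K, ((blk N A k).card : ℝ) ≤ A.card := by
    have h1 : ∑ k ∈ K, (blk N A k).card ≤ A.card := by
      rw [← Finset.card_biUnion]
      · refine Finset.card_le_card ?_
        intro a ha
        rw [Finset.mem_biUnion] at ha
        obtain ⟨k, _, h2⟩ := ha
        unfold blk at h2
        exact (Finset.mem_filter.1 h2).1
      · intro k _ k' _ hkk
        show Disjoint (blk N A k) (blk N A k')
        rw [Finset.disjoint_left]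
        intro a ha ha'
        unfold blk at ha ha'
        rw [Finset.mem_filter] at ha ha'
        exact hkk (ha.2.symm.trans ha'.2)
    exact_mod_cast h1
  calc ∑ x ∈ Icc (-(N : ℤ)) N, ‖∑ a ∈ A, α a * χ (a + (x : ZMod p))‖
      ≤ ∑ x ∈ Icc (-(N : ℤ)) N, (‖∑ a ∈ As, α a * χ (a + (x : ZMod p))‖ +
        ∑ k ∈ K, ‖∑ a ∈ blk N A k, α a * χ (a + (x : ZMod p))‖) :=
        Finset.sum_le_sum fun x _ => hsplit x
    _ = ∑ x ∈ Icc (-(N : ℤ)) N, ‖∑ a ∈ As, α a * χ (a + (x : ZMod p))‖ +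
        ∑ k ∈ K, ∑ x ∈ Icc (-(N : ℤ)) N, ‖∑ a ∈ blk N A k, α a * χ (a + (x : ZMod p))‖ := by
        rw [Finset.sum_add_distrib, Finset.sum_comm (s := Icc (-(N : ℤ)) N) (t := K)]
    _ ≤ 3 * (p : ℝ) ^ (-(2 * η)) * (A.card * N) +
        ∑ k ∈ K, (p : ℝ) ^ (-(2 * η)) * ((blk N A k).card * N) :=
        add_le_add hsparse (Finset.sum_le_sum hdense)
    _ = 3 * (p : ℝ) ^ (-(2 * η)) * (A.card * N) +
        (p : ℝ) ^ (-(2 * η)) * ((∑ k ∈ K, ((blk N A k).card : ℝ)) * N) := by
        rw [Finset.sum_mul, Finset.mul_sum]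
    _ ≤ 3 * (p : ℝ) ^ (-(2 * η)) * (A.card * N) + (p : ℝ) ^ (-(2 * η)) * (A.card * N) := by
        refine add_le_add le_rfl (mul_le_mul_of_nonneg_left ?_ (by positivity))
        exact mul_le_mul_of_nonneg_right hblocks hN0.le
    _ = (4 * (p : ℝ) ^ (-(2 * η))) * (A.card * N) := by ring
    _ ≤ (p : ℝ) ^ (-η) * (A.card * N) := by
        refine mul_le_mul_of_nonneg_right ?_ (by positivity)
        calc 4 * (p : ℝ) ^ (-(2 * η)) ≤ (p : ℝ) ^ η * (p : ℝ) ^ (-(2 * η)) :=
              mul_le_mul_of_nonneg_right (by linarith) (by positivity)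
          _ = (p : ℝ) ^ (-η) := by
              rw [← Real.rpow_add hp0]
              congr 1
              ring

/-- the mean bound for sets nearly invariant under an arithmetic progression -/
theorem ap_third (ε : ℝ) (hε : 0 < ε) :
    ∃ c : ℝ, 0 < c ∧ ∃ δ : ℝ, 0 < δ ∧ ∃ P : ℕ, ∀ (p : ℕ) [Fact p.Prime], P ≤ p →
      ∀ (χ : DirichletCharacter ℂ p), χ ≠ 1 → ∀ N : ℕ, N ≤ p → (p : ℝ) ^ (1 / 4 + ε) ≤ N →
        ∀ v : ZMod p, v ≠ 0 → ∀ A : Finset (ZMod p), (p : ℝ) ^ ε ≤ A.card →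
          (p : ℝ) ^ (1 - c) ≤ (A.card : ℝ) ^ 2 * N →
          ∀ Y : Finset (ZMod p), ((Y + AP v N).card : ℝ) ≤ (p : ℝ) ^ δ * Y.card →
          ∀ α : ZMod p → ℂ, (∀ a, ‖α a‖ ≤ 1) →
          ∑ y ∈ Y, ‖∑ a ∈ A, α a * χ (a + y)‖ ≤ (p : ℝ) ^ (-(2 * δ)) * (A.card * Y.card) := by
  classical
  obtain ⟨e, hedef⟩ : ∃ e : ℝ, e = min ε (1 / 8) / 2 := ⟨_, rfl⟩
  have he0 : 0 < e := by rw [hedef]; exact div_pos (lt_min hε (by norm_num)) (by norm_num)
  have heε : 2 * e ≤ ε := by rw [hedef]; linarith [min_le_left ε (1 / 8)]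
  have he1 : 16 * e ≤ 1 := by rw [hedef]; linarith [min_le_right ε (1 / 8)]
  obtain ⟨c, hc, hc16, η, hη, P, hP⟩ := line_third e he0
  obtain ⟨δ1, hδ1, P', hP'⟩ := Pool.Agent.W27.TQ.ap_mean e he0
  refine ⟨c, hc, min (η / 3) δ1, lt_min (by positivity) hδ1, P + P' + 256, ?_⟩
  intro p _ hp χ hχ N hNp hN v hv A hAε hA Y hY α hα
  have hp1' : (1 : ℝ) < p := by exact_mod_cast (Fact.out : p.Prime).one_lt
  have hp1 : (1 : ℝ) ≤ p := hp1'.le
  have hp0 : (0 : ℝ) < p := by linarith
  have hN0 : (0 : ℝ) < N := lt_of_lt_of_le (by positivity) hN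
  have hN1 : 1 ≤ N := by exact_mod_cast hN0
  have hAcard0 : (0 : ℝ) < A.card := lt_of_lt_of_le (by positivity) hAε
  rcases lt_or_ge (p : ℝ) ((N : ℝ) ^ 2) with hbig | hsmall
  · -- long progressions: known
    have h1 : (p : ℝ) ^ (1 + e) ≤ A.card * N * max (A.card : ℝ) N := by
      calc (p : ℝ) ^ (1 + e) = (p : ℝ) ^ e * p := by
            rw [Real.rpow_add hp0, Real.rpow_one, mul_comm]
        _ ≤ A.card * (N : ℝ) ^ 2 := by
            refine mul_le_mul ?_ hbig.le hp0.le hAcard0.le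
            exact (Real.rpow_le_rpow_of_exponent_le hp1 (by linarith)).trans hAε
        _ = A.card * N * N := by ring
        _ ≤ _ := mul_le_mul_of_nonneg_left (le_max_right _ _) (by positivity)
    have h2 := hP' p (by omega) χ hχ N hNp
      ((Real.rpow_le_rpow_of_exponent_le hp1 (by linarith)).trans hN) v hv A
      ((Real.rpow_le_rpow_of_exponent_le hp1 (by linarith)).trans hAε) h1 Y
      (hY.trans (mul_le_mul_of_nonneg_right (Real.rpow_le_rpow_of_exponent_le hp1
        (min_le_right _ _)) (Nat.cast_nonneg _))) α hα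
    refine h2.trans (mul_le_mul_of_nonneg_right ?_ (by positivity))
    exact Real.rpow_le_rpow_of_exponent_le hp1 (by linarith [min_le_right (η / 3) δ1])
  · have hN16 : 16 * N ≤ p := by
      have h1 : N * N ≤ p := by
        have : (N : ℝ) * N ≤ p := by rw [← sq]; exact hsmall
        exact_mod_cast this
      by_contra hcon
      rw [not_le] at hcon
      have h2 : N < 16 := by
        by_contra h3
        rw [not_lt] at h3
        have : 16 * N ≤ N * N := Nat.mul_le_mul_right _ h3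
        omega
      omega
    have hcardim : ∀ t : ZMod p, (A.image (fun a => (a + t) / v)).card = A.card := by
      intro t
      refine Finset.card_image_of_injOn ?_
      intro a _ b _ hab
      simp only at hab
      rw [div_left_inj' hv] at hab
      exact add_right_cancel hab
    have hmin := min_le_left (η / 3) δ1
    have h1 := cover_reduce v hv N hN1 hNp Y ((p : ℝ) ^ (min (η / 3) δ1)) hY
      (fun y => ‖∑ a ∈ A, α a * χ (a + y)‖) (fun _ => norm_nonneg _)
      ((p : ℝ) ^ (-η) * A.card) (by positivity) (by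
        intro t
        have h2 := hP p (by omega) χ hχ N
          ((Real.rpow_le_rpow_of_exponent_le hp1 (by linarith)).trans hN) hN16 hsmall
          (A.image (fun a => (a + t) / v)) (fun a => α (a * v - t)) (fun a => hα _) (by
            rw [hcardim t]
            exact hA)
        rw [hcardim t] at h2
        have h3 : ∑ x ∈ Icc (-(N : ℤ)) N, ‖∑ a ∈ A, α a * χ (a + (t + (x : ZMod p) * v))‖ ≤
            (p : ℝ) ^ (-η) * (A.card * N) := by
          refine le_trans ?_ h2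
          exact Finset.sum_le_sum fun x _ => shift_dilate χ A α v t hv (x : ZMod p)
        refine h3.trans (le_of_eq ?_)
        ring)
    refine h1.trans ?_
    calc (p : ℝ) ^ (-η) * A.card * ((p : ℝ) ^ (min (η / 3) δ1) * Y.card)
        = ((p : ℝ) ^ (-η) * (p : ℝ) ^ (min (η / 3) δ1)) * (A.card * Y.card) := by ring
      _ = (p : ℝ) ^ (-η + min (η / 3) δ1) * (A.card * Y.card) := by rw [← Real.rpow_add hp0]
      _ ≤ _ := by
          refine mul_le_mul_of_nonneg_right ?_ (by positivity)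
          exact Real.rpow_le_rpow_of_exponent_le hp1 (by linarith)

end Pool.Agent.H424.OT
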